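import Pool.Agent.Y819.ZF.StmS

/-!
# Graphs with a free action of a group such that the orbits are independent
-/

set_option autoImplicit false
set_option linter.all false

namespace Pool.Agent.Y457.ZS

open Pool.Agent.Y819.ZF

section act
variable {V P : Type} [Group P] [MulAction P V]

/-- the representatives of the orbits -/
noncomputable def rp (c : MulAction.orbitRel.Quotient P V) : V := Quotient.out c

theorem rp_mk (v : V) : ∃ g : P, g • v = rp (Quotient.mk (MulAction.orbitRel P V) v) := by
  have h : (MulAction.orbitRel P V).r (rp (Quotient.mk (MulAction.orbitRel P V) v)) v :=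
    Quotient.exact (Quotient.out_eq _)
  obtain ⟨g, hg⟩ := MulAction.orbitRel_apply.1 h
  exact ⟨g, hg⟩

theorem mk_smul (g : P) (v : V) : (Quotient.mk (MulAction.orbitRel P V) (g • v)) =
    Quotient.mk (MulAction.orbitRel P V) v := by
  apply Quotient.sound
  exact MulAction.orbitRel_apply.2 ⟨g, rfl⟩

theorem bij (hfree : ∀ (g : P) (v : V), g • v = v → g = 1) :
    Function.Bijective (fun a : MulAction.orbitRel.Quotient P V × P => a.2⁻¹ • rp a.1) := by
  constructor
  · rintro ⟨c, g⟩ ⟨c', g'⟩ h
    simp only at h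
    have h1 := congrArg (Quotient.mk (MulAction.orbitRel P V)) h
    rw [mk_smul, mk_smul] at h1
    have h2 : Quotient.mk (MulAction.orbitRel P V) (rp c) = c := Quotient.out_eq c
    have h3 : Quotient.mk (MulAction.orbitRel P V) (rp c') = c' := Quotient.out_eq c'
    rw [h2, h3] at h1
    subst h1
    have h4 : (g' * g⁻¹) • rp c = rp c := by
      rw [mul_smul, h, smul_inv_smul]
    have h5 := hfree _ _ h4
    rw [mul_inv_eq_one] at h5
    rw [h5]
  · intro v
    obtain ⟨g, hg⟩ := rp_mk (P := P) v
    refine ⟨(Quotient.mk (MulAction.orbitRel P V) v, g), ?_⟩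
    simp only
    rw [← hg, inv_smul_smul]

end act

theorem ind_congr {V : Type} (G : SimpleGraph V) {a b c e : V} (h : G.Adj a b ↔ G.Adj c e) :
    ind G a b = ind G c e := by
  unfold ind
  by_cases h1 : G.Adj a b
  · rw [if_pos h1, if_pos (h.1 h1)]
  · rw [if_neg h1, if_neg (fun h2 => h1 (h.2 h2))]

theorem main : S_ORB := by
  intro V G P _ _ _ k d hG hfree hind hk hcard hdeg
  classical
  have hP : 0 < Nat.card P := Nat.card_pos
  have hV : Finite V := by
    apply Nat.finite_of_card_ne_zero
    rw [hcard]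
    positivity
  have hFV : Fintype V := Fintype.ofFinite V
  have hFP : Fintype P := Fintype.ofFinite P
  have hB := bij (V := V) (P := P) hfree
  have hQ : Finite (MulAction.orbitRel.Quotient P V) := Quotient.finite _
  have hQk : Nat.card (MulAction.orbitRel.Quotient P V) = k := by
    have h1 := Nat.card_congr (Equiv.ofBijective _ hB)
    rw [Nat.card_prod, hcard] at h1
    exact Nat.eq_of_mul_eq_mul_right hP h1
  obtain ⟨φ⟩ : Nonempty (Fin k ≃ MulAction.orbitRel.Quotient P V) :=
    ⟨(Finite.equivFinOfCardEq hQk).symm⟩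
  let e : Fin k × P ≃ V := (Equiv.prodCongr φ (Equiv.refl P)).trans (Equiv.ofBijective _ hB)
  let r : Fin k → V := fun i => rp (φ i)
  have he : ∀ a, e a = a.2⁻¹ • r a.1 := fun a => rfl
  have hAdj : ∀ (g : P) (v w : V), G.Adj (g • v) (g • w) ↔ G.Adj v w := by
    intro g v w
    constructor
    · intro h
      have := hG g⁻¹ _ _ h
      rwa [inv_smul_smul, inv_smul_smul] at this
    · exact hG g v w
  let κ : Fin k → Fin k → P → ℕ := fun v w x => ind G (r v) (x⁻¹ • r w)
  have hκ : ∀ v w x, κ w v x⁻¹ = κ v w x := by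
    intro v w x
    show ind G (r w) (x⁻¹⁻¹ • r v) = ind G (r v) (x⁻¹ • r w)
    apply ind_congr
    rw [← hAdj x⁻¹, inv_inv, inv_smul_smul]
    exact G.adj_comm _ _
  refine ⟨κ, e, hκ, ?_, ?_⟩
  · refine ⟨inferInstance, ?_, ?_, ?_⟩
    · intro v w
      show ∑ᶠ x, κ v w x = ∑ᶠ x, κ w v x
      rw [finsum_eq_sum_of_fintype, finsum_eq_sum_of_fintype]
      refine Fintype.sum_equiv (Equiv.inv P) _ _ fun x => ?_
      exact (hκ v w x).symm
    · intro v
      show ∑ᶠ x, κ v v x = 0
      rw [finsum_eq_sum_of_fintype]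
      refine Finset.sum_eq_zero fun x _ => ?_
      show ind G (r v) (x⁻¹ • r v) = 0
      unfold ind
      rw [if_neg (hind _ _)]
    · intro v
      show ∑ᶠ w, ∑ᶠ x, κ v w x = d
      rw [finsum_eq_sum_of_fintype]
      have h1 : ∀ w, ∑ᶠ x, κ v w x = ∑ x, κ v w x := fun w => finsum_eq_sum_of_fintype _
      simp_rw [h1]
      rw [← Fintype.sum_prod_type' (fun w x => κ v w x)]
      have h2 : ∀ a : Fin k × P, κ v a.1 a.2 = if G.Adj (r v) (e a) then 1 else 0 := fun a => by
        show ind G (r v) (a.2⁻¹ • r a.1) = _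
        unfold ind
        rfl
      simp_rw [h2]
      rw [Finset.sum_boole, Nat.cast_id, ← hdeg (r v)]
      rw [← Set.ncard_coe_finset]
      refine Set.ncard_congr (fun a _ => e a) ?_ ?_ ?_
      · intro a ha
        rw [Finset.mem_coe, Finset.mem_filter] at ha
        exact ha.2
      · intro a b _ _ h
        exact e.injective h
      · intro u hu
        refine ⟨e.symm u, ?_, e.apply_symm_apply u⟩
        rw [Finset.mem_coe, Finset.mem_filter, e.apply_symm_apply]
        exact ⟨Finset.mem_univ _, hu⟩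
  · intro a b
    unfold covM
    have h1 : ∀ x : {x : P // x • a.2 = b.2}, x = ⟨b.2 * a.2⁻¹, by
        rw [smul_eq_mul, inv_mul_cancel_right]⟩ := by
      rintro ⟨x, hx⟩
      apply Subtype.ext
      simp only
      rw [smul_eq_mul] at hx
      rw [← hx, mul_inv_cancel_right]
    rw [finsum_eq_single _ (⟨b.2 * a.2⁻¹, by rw [smul_eq_mul, inv_mul_cancel_right]⟩ :
      {x : P // x • a.2 = b.2}) (fun x hx => absurd (h1 x) hx)]
    show ind G (e a) (e b) = ind G (r a.1) ((b.2 * a.2⁻¹)⁻¹ • r b.1)
    apply ind_congr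
    rw [he, he, ← hAdj a.2, smul_inv_smul, mul_inv_rev, inv_inv, mul_smul]

end Pool.Agent.Y457.ZS
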